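import Pool.Agent.R3B.StmtsB

/-!
# R3B.ENG: the energy
-/

set_option autoImplicit false

namespace Pool.Agent.R3B.H94

open Set Filter Topology MeasureTheory
open Pool.Agent.BE01F

theorem eng (bin : BinStmt) (hdy : HdyStmt) : EngStmt := by
  intro a α ℓ w V Z A B C ha hα hℓ hP t ht
  have hV : ContinuousOn (V t) (Icc 0 ℓ) := by
    have h1 : (V t) = (fun z : ℝ × ℝ => V z.1 z.2) ∘ (fun r => (t, r)) := rfl
    rw [h1]
    refine hP.cV.comp (by fun_prop) ?_
    intro r hr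
    exact ⟨ht, hr⟩
  have hZ : ContinuousOn (Z t) (Icc 0 ℓ) := by
    have h1 : (Z t) = (fun z : ℝ × ℝ => Z z.1 z.2) ∘ (fun r => (t, r)) := rfl
    rw [h1]
    refine hP.cZ.comp (by fun_prop) ?_
    intro r hr
    exact ⟨ht, hr⟩
  have hw : ∀ r, 0 ≤ r → r ≤ ℓ → w t r = ∫ ρ in (0 : ℝ)..r, Z t ρ :=
    fun r h0 h1 => hP.wr t r ht h0 h1
  have hdy' := hdy ℓ (w t) (Z t) hℓ hZ hw
  rw [hP.wl t ht] at hdy'
  have e1 : energy (Bl ℓ) (fun s => rf (V s)) (fun s => rg (w s) (Z s)) t =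
      intg (Bl ℓ) (fun x => (fun r : ℝ => (V t r / r) ^ 2 +
        ((Z t r - w t r / r) / r ^ 2) ^ 2 * r ^ 2) ‖x‖) := by
    unfold energy
    congr 1
    funext x
    simp only [rf, rg]
    rw [norm_smul, mul_pow, Real.norm_eq_abs, sq_abs]
  refine e1.trans ((bin ℓ (fun r : ℝ => (V t r / r) ^ 2 +
        ((Z t r - w t r / r) / r ^ 2) ^ 2 * r ^ 2) hℓ.le).trans ?_)
  congr 1
  have e2 : (∫ r in (0 : ℝ)..ℓ, r ^ 2 * ((V t r / r) ^ 2 +
      ((Z t r - w t r / r) / r ^ 2) ^ 2 * r ^ 2)) =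
      ∫ r in (0 : ℝ)..ℓ, (V t r ^ 2 + (Z t r - w t r / r) ^ 2) := by
    refine intervalIntegral.integral_congr_ae (ae_of_all _ fun r hr => ?_)
    rw [uIoc_of_le hℓ.le] at hr
    have hr0 : r ≠ 0 := hr.1.ne'
    field_simp
  rw [e2]
  have hVi : IntervalIntegrable (fun r => V t r ^ 2) volume 0 ℓ := by
    refine ContinuousOn.intervalIntegrable ?_
    rw [uIcc_of_le hℓ.le]
    exact hV.pow 2
  have hZi : IntervalIntegrable (fun r => Z t r ^ 2) volume 0 ℓ := by
    refine ContinuousOn.intervalIntegrable ?_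
    rw [uIcc_of_le hℓ.le]
    exact hZ.pow 2
  have hZ1 : IntervalIntegrable (Z t) volume 0 ℓ := by
    refine ContinuousOn.intervalIntegrable ?_
    rw [uIcc_of_le hℓ.le]
    exact hZ
  -- bound of `Z`
  obtain ⟨K, hK⟩ := isCompact_Icc.exists_bound_of_continuousOn hZ
  have hwK : ∀ r, 0 ≤ r → r ≤ ℓ → |w t r| ≤ K * r := by
    intro r h0 h1
    rw [hw r h0 h1]
    have h2 := intervalIntegral.norm_integral_le_of_norm_le_const (a := (0 : ℝ)) (b := r)
      (f := Z t) (C := K) (fun x hx => by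
        rw [uIoc_of_le h0] at hx
        exact hK x ⟨hx.1.le, hx.2.trans h1⟩)
    rw [sub_zero, abs_of_nonneg h0, Real.norm_eq_abs] at h2
    exact h2
  have hwc : ContinuousOn (w t) (Icc 0 ℓ) := by
    have h1 : ContinuousOn (fun r => ∫ ρ in (0 : ℝ)..r, Z t ρ) (Icc 0 ℓ) := by
      have h2 := intervalIntegral.continuousOn_primitive_interval' (μ := volume) (f := Z t)
        (a := 0) (b₁ := 0) (b₂ := ℓ) hZ1 (left_mem_uIcc)
      rw [uIcc_of_le hℓ.le] at h2
      exact h2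
    exact h1.congr fun r hr => hw r hr.1 hr.2
  have hDi : IntervalIntegrable (fun r => (Z t r - w t r / r) ^ 2) volume 0 ℓ := by
    rw [intervalIntegrable_iff_integrableOn_Ioc_of_le hℓ.le]
    have hcont : ContinuousOn (fun r => (Z t r - w t r / r) ^ 2) (Ioc 0 ℓ) := by
      refine ContinuousOn.pow ?_ 2
      refine (hZ.mono Ioc_subset_Icc_self).sub ?_
      exact (hwc.mono Ioc_subset_Icc_self).div continuousOn_id fun r hr => hr.1.ne'
    haveI : IsFiniteMeasure (volume.restrict (Ioc (0 : ℝ) ℓ)) :=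
      ⟨by rw [Measure.restrict_apply_univ]; exact measure_Ioc_lt_top⟩
    refine Integrable.of_bound (hcont.aestronglyMeasurable measurableSet_Ioc) ((K + K) ^ 2) ?_
    · refine (ae_restrict_iff' measurableSet_Ioc).2 (ae_of_all _ fun r hr => ?_)
      have h1 : |Z t r| ≤ K := hK r ⟨hr.1.le, hr.2⟩
      have h2 : |w t r / r| ≤ K := by
        rw [abs_div, abs_of_pos hr.1, div_le_iff₀ hr.1]
        exact hwK r hr.1.le hr.2
      have h3 : |Z t r - w t r / r| ≤ K + K := (abs_sub _ _).trans (add_le_add h1 h2)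
      rw [Real.norm_eq_abs, abs_pow]
      exact pow_le_pow_left₀ (abs_nonneg _) h3 2
  rw [intervalIntegral.integral_add hVi hDi, intervalIntegral.integral_add hVi hZi, hdy']
  ring

end Pool.Agent.R3B.H94
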